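import Pool.Agent.Helper18.BFAction

open Finset

namespace Pool.Agent.Results.MP_e8ee11_co.TorsionFreeAction

theorem result : ∃ C : ℝ, 0 < C ∧
    ∀ (G V : Type) [AddCommGroup G] [IsAddTorsionFree G] [AddAction G V],
      (∀ (g : G) (v : V), g +ᵥ v = v → g = 0) →
      ∀ B : Finset V, (∀ v : V, ∃ b ∈ B, ∃ g : G, g +ᵥ b = v) →
      ∀ (T : ℝ) (M : Set (V →₀ ℝ)),
      (∀ g : G, ∀ f ∈ M, f.mapDomain (fun v => g +ᵥ v) ∈ M) →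
      (∀ (v : V) (F : Finset (V →₀ ℝ)), (∀ f ∈ F, f ∈ M) → ∑ f ∈ F, (f v) ^ 2 ≤ T) →
      ∃ χ : V → ℝ, (∀ v, χ v = 1 ∨ χ v = -1) ∧
        ∀ f ∈ M, |∑ v ∈ f.support, f v * χ v| ≤ C * √(#B * T) := by
  refine ⟨√Helper18.BF.CC, Real.sqrt_pos.2 Helper18.BF.CC_pos, ?_⟩
  intro G V _ _ _ hfree B hB T M hM hcol
  obtain ⟨χ, h1, h2⟩ := Helper18.BF.komlos_free hfree B hB T M hM hcol
  refine ⟨χ, h1, ?_⟩
  intro f hf
  rw [← Real.sqrt_mul Helper18.BF.CC_pos.le]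
  exact Real.abs_le_sqrt (h2 f hf)

end Pool.Agent.Results.MP_e8ee11_co.TorsionFreeAction
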